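import Pool.Agent.Helper8.TY.PE
import Pool.Agent.Helper47.TY.DPair
import Pool.Agent.Helper79.CV.FReps

/-!
MP_8ee768_co, project TH-Y', stage B1b: the driver.

The small end `x` of the edge is a global minimum, so its class is one of the reduced classes of
`repsF`. The position of `y` in the representative is carried to a type `t` and a lane `i` of the
row of `t` (the roots `(t, i)`), `y` becomes `11`; the half of `y` is any lane `j` of the same row.
-/

set_option autoImplicit false
set_option maxRecDepth 100000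

namespace Pool.Agent.Helper8.TY

open Finset
open Pool.Agent.Helper89.CV (OddCover ofMask pc ofMask_card)
open Pool.Agent.Helper97.CV Pool.Agent.Helper79.CV
open Pool.Agent.Helper82.TY (below Best)
open Pool.Agent.Helper4.CV Pool.Agent.Helper33.TY Pool.Agent.Helper25.TY
open Pool.Agent.Helper47.TY (eq_fam_of_parts)
open Pool.Agent.Helper49.TY (QP CenB1b stB1b_of)

/-- a class with a 5-set containing three quads cannot be the small end -/
theorem cen_nonred {j r : ℕ} (hr : repsF[j]? = some r) (hj : redF j = false) : CenB1b r := by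
  intro B p hQ hl
  obtain ⟨-, -, w, hw, hok⟩ := chkF_get chkF_ok hr
  have hw0 : Nat.beq w 0 = false := by
    unfold redF at hj
    rw [List.getD_eq_getElem?_getD, hw] at hj
    exact hj
  unfold witOK at hok
  rw [hw0, Bool.false_or, Bool.and_eq_true, Bool.and_eq_true, Nat.blt_eq, Nat.beq_eq,
    Nat.ble_eq] at hok
  obtain ⟨h1, h2, h3⟩ := hok
  rw [cub4_eq (repsF_lt hr)] at h3
  have h4 := three_le_card h1 h2 h3
  have h12 : (12 : Fin 13) ∉ ofMask w := by
    rw [mem_ofMask]
    intro h5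
    have e : (12 : Fin 13).val = 12 := rfl
    rw [e, Nat.testBit_eq_false_of_lt h1] at h5
    exact Bool.false_ne_true h5
  have h5 := Pool.Agent.Helper82.TY.Best.p_le_two hQ.best
    (by rw [ofMask_card, h2]) h12 hQ.min_c
  rw [hl] at h5
  omega

/-- the positions of excess 1 of the reduced classes are carried to roots -/
def PosB (typ : ℕ → ℕ) (ln : ℕ → ℕ → ℕ) (roots : List (ℕ × ℕ)) : Prop :=
  ∀ j r, repsF[j]? = some r → redF j = true → ∀ p : Fin 13, p ≠ 12 →
    (link (fam 12 4 r) p).card = 21 → ∃ x ∈ roots, ∃ ψ : Equiv.Perm (Fin 13), ψ 12 = 12 ∧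
      ψ p = 11 ∧ mapF ψ (fam 12 4 r) = fam 12 4 (typ x.1 * 2 ^ 330 + ln x.1 x.2)

/-- **the driver of stage B1b** -/
theorem stB1b_of_roots (hcls : ClsOK 4 repsF) {typ nl : ℕ → ℕ} {ln : ℕ → ℕ → ℕ}
    (hty : ∀ t, typ t < 2 ^ 165) (hln : ∀ t i, ln t i < 2 ^ 330) {roots : List (ℕ × ℕ)}
    (hpos : PosB typ ln roots)
    (hT : ∀ x ∈ roots, TableOK (typ x.1) 6 (fun _ => True)
      {E | ∃ i < nl x.1, E = fam 11 4 (ln x.1 i)})
    (hkill : ∀ x ∈ roots, ∀ j < nl x.1,
      PDead QP (typ x.1 * 2 ^ 330 + ln x.1 x.2) (cone 11 (fam 11 4 (ln x.1 j)))) :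
    StB1b := by
  refine stB1b_of hcls fun j r hr => ?_
  cases hj : redF j with
  | false => exact cen_nonred hr hj
  | true =>
    intro B p hQ hl
    have hB := hQ.best.odd
    have hp : p ≠ 12 := hQ.cy.symm
    have hc : (link (fam 12 4 r) p).card = 21 := by
      rw [← hl, card_link_link hB hQ.cy, hQ.edge]
    obtain ⟨x, hx, ψ, h12, h11, hψ⟩ := hpos j r hr hj p hp hc
    have hQ' := hQ.map ψ
    rw [h12, h11] at hQ'
    have hB' := oddCover_mapF hB ψ
    have hl12 : link (mapF ψ B) 12 = fam 12 4 (typ x.1 * 2 ^ 330 + ln x.1 x.2) := by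
      rw [← hψ, ← hl]
      conv_lhs => rw [← h12]
      exact link_mapF ψ _ _
    have h3 : mapF 1 (link (link (mapF ψ B) 12) 11) = fam 11 3 (typ x.1) := by
      rw [mapF_one, hl12]
      exact (Pool.Agent.Helper7.TY.link_fam_last (hty _) (hln _ _)).1
    obtain ⟨E, ⟨i, hi, rfl⟩, h4⟩ := linkage hB' (P := fun _ => True) (fun _ _ _ => trivial)
      (hT x hx) (σ := 1) rfl rfl h3 hQ'.hy trivial
    have h5 : (1 : Equiv.Perm (Fin 13)).symm = 1 := rfl
    rw [h5, mapF_one] at h4
    exact hkill x hx i hi _ hQ' hl12 h4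

end Pool.Agent.Helper8.TY
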