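import Pool.Agent.Helper8.TY.BCol
import Pool.Agent.Gen.TY.B1.Pos
import Pool.Agent.Helper7.TB.RowChk
import Pool.Agent.Helper47.TY.DEng

/-!
MP_8ee768_co, project TH-Y', stage B1b: the three hypotheses of `no_cover` (Helper4/CV/Final.lean)
in terms of helper7's tables.
-/

set_option autoImplicit false
set_option maxRecDepth 100000
set_option exponentiation.threshold 1000

namespace Pool.Agent.Helper8.TY

open Finset
open Pool.Agent.Helper97.CV Pool.Agent.Helper79.CV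
open Pool.Agent.Helper4.CV Pool.Agent.Helper33.TY Pool.Agent.Helper7.TY
open Pool.Agent.Helper82.TY (popR)
open Pool.Agent.Helper47.TY (card_fam_eq)
open Pool.Agent.Helper49.TY (QP)
open Pool.Agent.Helper7.TB (laneL typ nl lane lane_eq typF typF_eq nlF nlF_eq laneF laneF_eq
  laneF_fld laneF_lt rowP typ_lt)
open Pool.Agent.Gen.TY.B1.Pos (roots posB typF_lt)

/-- range of a root, its pair link has 21 blocks -/
noncomputable def rtOK2 (x : ℕ × ℕ) : Bool :=
  Nat.ble 2 x.1 && (Nat.blt x.1 5074 && (Nat.blt x.2 (nlF x.1) &&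
    Nat.beq (popR (typF x.1)) 21))

theorem roots_ok2 : roots.all rtOK2 = true := by decide +kernel

theorem root_range2 {x : ℕ × ℕ} (hx : x ∈ roots) :
    InR 5074 x.1 ∧ x.2 < nl x.1 ∧ (fam 11 3 (typ x.1)).card = 21 := by
  have h := List.all_eq_true.1 roots_ok2 x hx
  unfold rtOK2 at h
  rw [Bool.and_eq_true, Bool.and_eq_true, Bool.and_eq_true, Nat.ble_eq, Nat.blt_eq, Nat.blt_eq,
    Nat.beq_eq, nlF_eq] at h
  refine ⟨⟨h.1, h.2.1⟩, h.2.2.1, ?_⟩
  have e : (11 : ℕ).choose 3 = 165 := by decide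
  rw [card_fam_eq (by norm_num) (by rw [e]; exact typ_lt x.1) (by decide), ← typF_eq]
  exact h.2.2.2

theorem laneL_lane {t i : ℕ} (ht : InR 5074 t) (hi : i < nl t) : laneL (rowP t) i = lane t i := by
  rw [← laneF_eq, laneF_fld ht.2 hi, lane_eq]

/-- **`hB1p`** -/
theorem posB_lane : PosB typ lane roots := by
  intro j r hr hj p hp hc
  obtain ⟨x, hx, ψ, h1, h2, h3⟩ := posB j r hr hj p hp hc
  obtain ⟨h4, h5, -⟩ := root_range2 hx
  refine ⟨x, hx, ψ, h1, h2, ?_⟩
  rw [h3, typF_eq, laneF_eq, laneL_lane h4 h5]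

/-- **`hB1t`** -/
theorem roots_types : ∀ x ∈ roots, InR 5074 x.1 ∧ (fam 11 3 (typ x.1)).card ≠ 19 := by
  intro x hx
  obtain ⟨h1, -, h2⟩ := root_range2 hx
  exact ⟨h1, by omega⟩

/-- **`hB1b`** from the units -/
theorem kill_lane (H : BHyp) {us : List (ℕ × ℕ × ℕ × ℕ)} (hU : AllU us)
    (hc : covL nlF us roots 0 = true) : ∀ x ∈ roots, ∀ j < nl x.1,
      PDead QP (typ x.1 * 2 ^ 330 + lane x.1 x.2) (cone 11 (fam 11 4 (lane x.1 j))) := by
  intro x hx j hj
  obtain ⟨h1, h2, -⟩ := root_range2 hx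
  have h := dead_of_units H hU hc x hx j (by rw [nlF_eq]; exact hj)
  rw [laneL_lane h1 h2, laneL_lane h1 hj] at h
  exact h

end Pool.Agent.Helper8.TY
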