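import Pool.Agent.Helper8.TY.BUnit

/-!
MP_8ee768_co, project TH-Y', stage B1b: collecting the units.

A module has the defs `u_i : bU t i m cs = true` and one theorem
`col : AllU [(t, i, m, n), ..]` (`n` = number of certificates), built with `AllU.cons`. The list of
all units covers the rows of the roots by the check `covL`.
-/

set_option autoImplicit false

namespace Pool.Agent.Helper8.TY

open Pool.Agent.Helper97.CV Pool.Agent.Helper79.CV
open Pool.Agent.Helper4.CV Pool.Agent.Helper33.TY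
open Pool.Agent.Helper49.TY (QP)
open Pool.Agent.Helper7.TB (laneL laneL_lt typ typ_lt rowP)
open Pool.Agent.Helper67.GT (NT gP gN gPiece)
open Pool.Agent.Helper59.GC (gC)
open Pool.Agent.Helper59.TY (gath tA tB)
open Pool.Agent.Helper67.TY (GluedOK)
open Pool.Agent.Helper28.TY (rlanes)

/-- the hypotheses on the glued table -/
def BHyp : Prop := ∃ G : ℕ → ℕ, GluedOK NT G (rlanes gPiece gP gN) ∧
  ∀ t < NT, gath (tA (gC t)) (tB (gC t)) = G t

/-- the lanes `lo, .., hi - 1` of the row `t` are dead for the root `i` -/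
def DeadR (t i lo hi : ℕ) : Prop := ∀ j, lo ≤ j → j < hi →
  PDead QP (typ t * 2 ^ 330 + laneL (rowP t) i) (cone 11 (fam 11 4 (laneL (rowP t) j)))

/-- a unit `(t, i, m, n)` is dead -/
def DeadU (x : ℕ × ℕ × ℕ × ℕ) : Prop :=
  DeadR x.1 x.2.1 (48 * x.2.2.1) (48 * x.2.2.1 + x.2.2.2)

/-- all units of a list are dead if the glued table is correct -/
def AllU (l : List (ℕ × ℕ × ℕ × ℕ)) : Prop := BHyp → ∀ x ∈ l, DeadU x

theorem AllU.nil : AllU [] := fun _ _ hx => absurd hx List.not_mem_nil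

theorem AllU.cons {t i m : ℕ} {cs : List ℕ} {l : List (ℕ × ℕ × ℕ × ℕ)}
    (h : bU t i m cs = true) (n : ℕ) (hn : Nat.ble n cs.length = true) (hl : AllU l) :
    AllU ((t, i, m, n) :: l) := by
  intro H x hx
  rcases List.mem_cons.1 hx with rfl | hx
  · obtain ⟨G, hg, ht⟩ := H
    intro j h1 h2
    have h3 : n ≤ cs.length := Nat.le_of_ble_eq_true hn
    refine bU_sound hg ht h j h1 (lt_of_lt_of_le h2 ?_)
    exact Nat.add_le_add_left h3 _
  · exact hl H x hx

theorem AllU.append {l l' : List (ℕ × ℕ × ℕ × ℕ)} (h : AllU l) (h' : AllU l') :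
    AllU (l ++ l') := by
  intro H x hx
  rcases List.mem_append.1 hx with hx | hx
  · exact h H x hx
  · exact h' H x hx

/-- the units in order cover the rows of the roots; state: current root and position; a root is
finished if the position is at least `nl t` -/
def covL (nl : ℕ → ℕ) (us : List (ℕ × ℕ × ℕ × ℕ)) : List (ℕ × ℕ) → ℕ → Bool :=
  @List.rec (ℕ × ℕ × ℕ × ℕ) (fun _ => List (ℕ × ℕ) → ℕ → Bool)
    (fun rs _ => @List.rec (ℕ × ℕ) (fun _ => Bool) true (fun _ _ _ => false) rs)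
    (fun u _ ih rs p => @List.rec (ℕ × ℕ) (fun _ => Bool) true (fun r rs' _ =>
      (Nat.beq u.1 r.1 && Nat.beq u.2.1 r.2 && Nat.ble (Nat.mul 48 u.2.2.1) p) &&
      (bif Nat.ble (nl r.1) (Nat.add (Nat.mul 48 u.2.2.1) u.2.2.2) then ih rs' 0
      else ih (r :: rs') (Nat.add (Nat.mul 48 u.2.2.1) u.2.2.2))) rs) us

theorem covL_cons (nl : ℕ → ℕ) (u : ℕ × ℕ × ℕ × ℕ) (us : List (ℕ × ℕ × ℕ × ℕ)) (r : ℕ × ℕ)
    (rs : List (ℕ × ℕ)) (p : ℕ) : covL nl (u :: us) (r :: rs) p =
      ((Nat.beq u.1 r.1 && Nat.beq u.2.1 r.2 && Nat.ble (48 * u.2.2.1) p) &&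
      (bif Nat.ble (nl r.1) (48 * u.2.2.1 + u.2.2.2) then covL nl us rs 0
      else covL nl us (r :: rs) (48 * u.2.2.1 + u.2.2.2))) := rfl

theorem covL_sound {nl : ℕ → ℕ} : ∀ (us : List (ℕ × ℕ × ℕ × ℕ)) (rs : List (ℕ × ℕ)) (p : ℕ),
    covL nl us rs p = true → (∀ x ∈ us, DeadU x) →
    (∀ r, rs.head? = some r → DeadR r.1 r.2 0 p) → ∀ r ∈ rs, DeadR r.1 r.2 0 (nl r.1)
  | _, [], _, _, _, _ => fun r hr => absurd hr List.not_mem_nil
  | [], _ :: _, _, h, _, _ => absurd h Bool.false_ne_true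
  | u :: us, r :: rs, p, h, hU, hp => by
    rw [covL_cons, Bool.and_eq_true, Bool.and_eq_true, Bool.and_eq_true] at h
    obtain ⟨⟨⟨h1, h2⟩, h3⟩, h4⟩ := h
    have e1 : u.1 = r.1 := Nat.eq_of_beq_eq_true h1
    have e2 : u.2.1 = r.2 := Nat.eq_of_beq_eq_true h2
    have e3 : 48 * u.2.2.1 ≤ p := Nat.le_of_ble_eq_true h3
    have hu := hU u List.mem_cons_self
    have hnew : DeadR r.1 r.2 0 (48 * u.2.2.1 + u.2.2.2) := by
      intro j _ hj
      by_cases h5 : j < p
      · exact hp r rfl j (Nat.zero_le j) h5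
      · unfold DeadU at hu
        rw [e1, e2] at hu
        exact hu j (by omega) hj
    have hU' : ∀ x ∈ us, DeadU x := fun x hx => hU x (List.mem_cons_of_mem _ hx)
    rw [cond_eq_ite] at h4
    split_ifs at h4 with h6
    · have h7 : nl r.1 ≤ 48 * u.2.2.1 + u.2.2.2 := Nat.le_of_ble_eq_true h6
      have h8 := covL_sound us rs 0 h4 hU' (fun r' _ j _ hj => absurd hj (Nat.not_lt_zero j))
      intro r' hr'
      rcases List.mem_cons.1 hr' with rfl | hr'
      · exact fun j h9 h10 => hnew j h9 (lt_of_lt_of_le h10 h7)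
      · exact h8 r' hr'
    · refine covL_sound us (r :: rs) _ h4 hU' ?_
      intro r' hr'
      have e4 : r = r' := Option.some.inj hr'
      rw [← e4]
      exact hnew

/-- **from the units to the roots** -/
theorem dead_of_units {nl : ℕ → ℕ} {us : List (ℕ × ℕ × ℕ × ℕ)} {rs : List (ℕ × ℕ)}
    (H : BHyp) (hU : AllU us) (hc : covL nl us rs 0 = true) :
    ∀ r ∈ rs, ∀ j < nl r.1, PDead QP (typ r.1 * 2 ^ 330 + laneL (rowP r.1) r.2)
      (cone 11 (fam 11 4 (laneL (rowP r.1) j))) := by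
  intro r hr j hj
  exact covL_sound us rs 0 hc (hU H) (fun r' _ j _ hj => absurd hj (Nat.not_lt_zero j)) r hr j
    (Nat.zero_le j) hj

end Pool.Agent.Helper8.TY
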