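import Pool.Agent.Helper8.TY.BRx
import Pool.Agent.Helper8.TY.BFrame
import Pool.Agent.Helper47.TY.DEng
import Pool.Agent.Helper47.TY.TExp
import Pool.Agent.Helper54.TY.QS
import Pool.Agent.Helper28.TY.HRun
import Pool.Agent.Helper7.TB.Acc

/-!
MP_8ee768_co, project TH-Y', stage B1b: the engine.

The loop over a pair is that of stage S (`pairOk`, `zloop` of helper54) with the final check
`pfin` of helper33 and the relative form `rx` of helper25. A root is a lane `l` of the row of the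
type `T`; the entries are the lanes of the same row, from the piece number `m` on, one certificate
for each lane. The context is `CB s`: `QP B 12 11` and `MM B 12 + MM B 11 = s`.
-/

set_option autoImplicit false
set_option maxRecDepth 100000
set_option exponentiation.threshold 20000

namespace Pool.Agent.Helper8.TY

open Finset
open Pool.Agent.Helper89.CV (OddCover ofMask)
open Pool.Agent.Helper97.CV Pool.Agent.Helper79.CV
open Pool.Agent.Helper82.TY (below Best popR)
open Pool.Agent.Helper4.CV Pool.Agent.Helper33.TY Pool.Agent.Helper7.TY Pool.Agent.Helper54.TY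
open Pool.Agent.Helper25.TY (rx)
open Pool.Agent.Helper47.TY (thr sum_of_frame card_fam_eq tX tX_eq)
open Pool.Agent.Helper49.TY (QP)
open Pool.Agent.Helper7.TB (laneL laneL_eq laneL_lt tl)
open Pool.Agent.Helper59.TY (exw pw_exw tyC tyC_sound gath tA tB)
open Pool.Agent.Helper67.TY (GluedOK)
open Pool.Agent.Helper28.TY (runT rlanes runT_dead)
open Pool.Agent.Helper63.SIMD (fld)

/-! ## the context -/

/-- the context of a pair with `MM B 12 + MM B 11 = s` -/
def CB (s : ℕ) (B : Finset (Finset (Fin 13))) : Prop := QP B 12 11 ∧ MM B 12 + MM B 11 = s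

theorem CB.odd {s : ℕ} {B : Finset (Finset (Fin 13))} (h : CB s B) : OddCover B := h.1.best.odd

theorem CB.map {s : ℕ} {B : Finset (Finset (Fin 13))} (h : CB s B) {σ : Equiv.Perm (Fin 13)}
    (h12 : σ 12 = 12) (h11 : σ 11 = 11) : CB s (mapF σ B) := by
  have hB := h.odd
  constructor
  · have h1 := h.1.map σ
    rwa [h12, h11] at h1
  · have e1 := MM_mapF hB σ 12
    have e2 := MM_mapF hB σ 11
    rw [h12] at e1
    rw [h11] at e2
    rw [e1, e2]
    exact h.2

theorem CB.pe {s : ℕ} {B : Finset (Finset (Fin 13))} (h : CB s B) :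
    PE B 12 11 (MM B 12) (MM B 11) := ⟨h.1, rfl, rfl⟩

theorem CB.six {s : ℕ} {B : Finset (Finset (Fin 13))} (h : CB s B) {z : Fin 13}
    (hz : z.val < 11) : 6 ≤ MM B z := h.pe.six hz

theorem CB.heavy {s : ℕ} {B : Finset (Finset (Fin 13))} (h : CB s B) :
    ∀ u : Fin 13, u.val < 11 → 1 ≤ mm B 12 u + mm B 11 u → 8 ≤ MM B u :=
  fun _ hu h1 => h.pe.heavy hu h1

/-! ## the operations -/

/-- the operations for the sum `s`; `n` types -/
noncomputable def bops (n : ℕ) (ty piece gP gN : ℕ → ℕ) (s : ℕ) : SOps :=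
  ⟨exw, zstep ⟨tyC ty n, runT (Nat.sub 83 s) 6 false piece gP gN⟩, setZ, pfin (Nat.sub 89 s)⟩

theorem fin_bops {s : ℕ} {B : Finset (Finset (Fin 13))} {Q : ℕ} (h : CB s B) (hW : PW B Q) :
    pfin (Nat.sub 89 s) Q = false := by
  have hT : 88 < Nat.sub 89 s + (MM B 11 + MM B 12) := by
    have e : Nat.sub 89 s = 89 - s := rfl
    rw [e]
    have := h.2
    omega
  exact pfin_sound h.odd h.1.best.le (fun z hz => h.six hz) hW hT

theorem run_bops {s : ℕ} (hs : s ≤ 10) (piece gP gN : ℕ → ℕ)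
    (B : Finset (Finset (Fin 13))) (t Q c : ℕ) (h : CB s B) (hW : PW B Q) (h6 : MM B 10 = 6)
    (hl : enc 10 4 (link B 10) ∈ rlanes piece gP gN t)
    (hne : runT (Nat.sub 83 s) 6 false piece gP gN t Q c ≠ 0) : False := by
  refine hne (runT_dead h.odd h.1.best.le (by norm_num) (fun u hu => h.six (by omega)) ?_ ?_
    hW hl)
  · exact fun h1 => absurd h1 Bool.false_ne_true
  · have e : Nat.sub 83 s = 83 - s := rfl
    rw [e]
    have := h.2
    omega

/-- the correctness structure -/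
theorem sok_bops {n : ℕ} {ty piece gP gN G : ℕ → ℕ} (hglue : GluedOK n G (rlanes piece gP gN))
    (htie : ∀ t < n, gath (tA (ty t)) (tB (ty t)) = G t) :
    ∀ s, s ≤ 10 → SOK (bops n ty piece gP gN s) (CB s) PW := by
  intro s hs
  exact {
    even := fun B h => h.odd
    six := fun B h z hz => h.six hz
    ex_ok := by
      intro B w Q h hW z hz hzw
      obtain ⟨ρ, h12, h11, h10, hW'⟩ := pw_exw h.odd hW w hz hzw
      exact ⟨ρ, h10, h.map h12 h11, hW'⟩
    zt_ok := by
      intro B h Q c hC hW hzs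
      refine zstep_sound (C := CB s) (W := PW) (NT := n) (G := G)
        (lanes := rlanes piece gP gN) (m := 6) ⟨fun B h => h.odd, glueN_of_gluedOK hglue, ?_,
        fun B t Q c h hW h6 _ hl hne => run_bops hs piece gP gN B t Q c h hW h6 hl hne⟩
        B h Q c hC hW hzs
      intro B t sw Q h hQ hty
      exact tyC_sound h.odd hQ htie hty
    fl_ok := fun B Q h hW z hz h8 => setZ_pw h.odd h.1.best.le hW hz h8
    fin_ok := fun B Q h hW => fin_bops h hW }

/-! ## one pair -/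

/-- force a number, `k` is a salt -/
def fo {α : Type} (k E : ℕ) (f : ℕ → α) : α :=
  @Nat.rec (fun _ => α) (f 0) (fun m _ => f (scc k m)) E

theorem fo_eq {α : Type} (k E : ℕ) (f : ℕ → α) : fo k E f = f E := by
  cases E <;> rfl

/-- force a small number -/
def fs {α : Type} (E : ℕ) (f : ℕ → α) : α :=
  @Nat.rec (fun _ => α) (f 0) (fun m _ => f (Nat.succ m)) E

theorem fs_eq {α : Type} (E : ℕ) (f : ℕ → α) : fs E f = f E := by
  cases E <;> rfl

/-- the check of one entry: `th e` is the sum of `MM`, `q e` the word, `R b` the relative form,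
`a` the value of `MM` of the root -/
def gPair (o : ℕ → SOps) (th q : ℕ → ℕ) (R : ℕ → ℕ → ℕ → ℕ → Bool) (a e c : ℕ) : Bool :=
  fo c e fun e => fs (th e) fun s =>
    @Bool.rec (fun _ => Bool) (pairOk (o s) q (R (Nat.sub s a)) e c) true
      (Nat.blt s (Nat.mul 2 a))

theorem gPair_eq (o : ℕ → SOps) (th q : ℕ → ℕ) (R : ℕ → ℕ → ℕ → ℕ → Bool) (a e c : ℕ) :
    gPair o th q R a e c = (bif Nat.blt (th e) (Nat.mul 2 a) then true
      else pairOk (o (th e)) q (R (Nat.sub (th e) a)) e c) := by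
  unfold gPair
  rw [fo_eq, fs_eq, rec_cond]

theorem gPair_sound {o : ℕ → SOps} (ho : ∀ s, s ≤ 10 → SOK (o s) (CB s) PW) {th q : ℕ → ℕ}
    {R : ℕ → ℕ → ℕ → ℕ → Bool} {a r : ℕ}
    (hth : ∀ (B : Finset (Finset (Fin 13))) (e : ℕ), QP B 12 11 → e < 2 ^ 330 →
      link B 12 = fam 12 4 r → lane B 11 = cone 11 (fam 11 4 e) → MM B 12 + MM B 11 = th e)
    (ha : ∀ (B : Finset (Finset (Fin 13))), OddCover B → link B 12 = fam 12 4 r → MM B 12 = a)
    (hq : ∀ (B : Finset (Finset (Fin 13))) (e : ℕ), QP B 12 11 → e < 2 ^ 330 →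
      link B 12 = fam 12 4 r → lane B 11 = cone 11 (fam 11 4 e) → PW B (q e))
    (hR : ∀ (B : Finset (Finset (Fin 13))) (b k m e : ℕ), PE B 12 11 a b →
      link B 12 = fam 12 4 r → lane B 11 = cone 11 (fam 11 4 e) → R b k m e = true → False)
    {e c : ℕ} (he : e < 2 ^ 330) (h : gPair o th q R a e c = true) :
    PDead QP r (cone 11 (fam 11 4 e)) := by
  intro B hQ h12 h11
  have hQ' : QP B 12 11 := hQ
  have hs := hth B e hQ' he h12 h11
  have ha1 := ha B hQ'.best.odd h12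
  have h1 := hQ'.hc
  have h2 := hQ'.hcy
  have h3 := hQ'.hy
  rw [gPair_eq, ← hs] at h
  have hblt : Nat.blt (MM B 12 + MM B 11) (Nat.mul 2 a) = false := by
    rw [Bool.eq_false_iff, Ne, Nat.blt_eq]
    have e1 : Nat.mul 2 a = 2 * a := rfl
    rw [e1]
    omega
  rw [hblt, cond_false] at h
  have key : pairOk (o (MM B 12 + MM B 11)) q (R (Nat.sub (MM B 12 + MM B 11) a)) e c =
      false := by
    refine pairOk_sound (E := fun B e => e < 2 ^ 330 ∧ link B 12 = fam 12 4 r ∧
      lane B 11 = cone 11 (fam 11 4 e)) (ho (MM B 12 + MM B 11) (by omega)) ?_ ?_ e c B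
      ⟨hQ', rfl⟩ ⟨he, h12, h11⟩
    · rintro B' e' hC ⟨hl, h4, h5⟩
      exact hq B' e' hC.1 hl h4 h5
    · rintro B' k m e' hC ⟨hl, h4, h5⟩
      rw [← Bool.not_eq_true]
      intro h6
      have h7 := ha B' hC.odd h4
      have h8 := hC.2
      have h9 : MM B' 11 = Nat.sub (MM B 12 + MM B 11) a := by
        have e1 : Nat.sub (MM B 12 + MM B 11) a = MM B 12 + MM B 11 - a := rfl
        rw [e1]
        omega
      exact hR B' _ k m e' ⟨hC.1, h7, h9⟩ h4 h5 h6
  rw [key] at h
  exact Bool.false_ne_true h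

/-! ## the loops over the lanes -/

/-- `2 ^ 330 - 1` -/
def mk330 : ℕ := 0x3ffffffffffffffffffffffffffffffffffffffffffffffffffffffffffffffffffffffffffffffffff

theorem mk330_eq : mk330 = 2 ^ 330 - 1 := by decide +kernel

/-- the lanes of one piece, then the continuation -/
def iLoop (g : ℕ → ℕ → Bool) (n : ℕ) : ℕ → List ℕ → (List ℕ → Bool) → Bool :=
  @Nat.rec (fun _ => ℕ → List ℕ → (List ℕ → Bool) → Bool) (fun _ cs k => k cs)
    (fun _ ih X cs k => @List.rec ℕ (fun _ => Bool) true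
      (fun c cs' _ => @Bool.rec (fun _ => Bool) false (ih (Nat.shiftRight X 330) cs' k)
        (g (Nat.land X mk330) c)) cs) n

/-- the loop over the pieces -/
def oLoop (g : ℕ → ℕ → Bool) (ps : List ℕ) : List ℕ → Bool :=
  @List.rec ℕ (fun _ => List ℕ → Bool)
    (fun cs => @List.rec ℕ (fun _ => Bool) true (fun _ _ _ => false) cs)
    (fun X _ ih cs => iLoop g 48 X cs ih) ps

theorem iLoop_succ (g : ℕ → ℕ → Bool) (n X c : ℕ) (cs : List ℕ) (k : List ℕ → Bool) :
    iLoop g (n + 1) X (c :: cs) k =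
      (bif g (Nat.land X mk330) c then iLoop g n (Nat.shiftRight X 330) cs k else false) := by
  rw [← rec_cond]
  rfl

theorem bif_true {b x : Bool} (h : (bif b then x else false) = true) : b = true ∧ x = true := by
  cases b with
  | false => exact absurd h Bool.false_ne_true
  | true => exact ⟨rfl, h⟩

theorem land_mk (X j : ℕ) : Nat.land (X >>> (330 * j)) mk330 = fld 330 X j := by
  rw [mk330_eq]
  show (X >>> (330 * j)) &&& (2 ^ 330 - 1) = _
  rw [Nat.and_two_pow_sub_one_eq_mod, Nat.shiftRight_eq_div_pow]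
  rfl

theorem fld_shift (X j : ℕ) : fld 330 (X >>> 330) j = fld 330 X (j + 1) := by
  rw [← land_mk, ← land_mk, ← Nat.shiftRight_add]
  congr 2
  ring

theorem iLoop_true {g : ℕ → ℕ → Bool} : ∀ (n X : ℕ) (cs : List ℕ) (k : List ℕ → Bool),
    iLoop g n X cs k = true →
    (∀ j, j < n → j < cs.length → ∃ c, g (fld 330 X j) c = true) ∧
      (n < cs.length → k (cs.drop n) = true)
  | 0, X, cs, k, h => ⟨fun j hj => absurd hj (Nat.not_lt_zero j), fun _ => h⟩
  | n + 1, X, [], k, h => ⟨fun j _ hj => absurd hj (Nat.not_lt_zero j),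
      fun hj => absurd hj (Nat.not_lt_zero _)⟩
  | n + 1, X, c :: cs, k, h => by
    rw [iLoop_succ] at h
    obtain ⟨h1, h2⟩ := bif_true h
    obtain ⟨h3, h4⟩ := iLoop_true n (Nat.shiftRight X 330) cs k h2
    constructor
    · intro j hj hl
      rcases j with _ | j
      · refine ⟨c, ?_⟩
        rw [← land_mk, Nat.mul_zero, Nat.shiftRight_zero]
        exact h1
      · rw [List.length_cons] at hl
        obtain ⟨c', hc'⟩ := h3 j (by omega) (by omega)
        refine ⟨c', ?_⟩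
        rw [← fld_shift]
        exact hc'
    · intro hl
      rw [List.length_cons] at hl
      exact h4 (by omega)

theorem laneL_cons (X : ℕ) (ps : List ℕ) {j : ℕ} (hj : j < 48) :
    laneL (X :: ps) j = fld 330 X j := by
  rw [laneL_eq, Nat.div_eq_of_lt hj, Nat.mod_eq_of_lt hj]
  rfl

theorem laneL_cons' (X : ℕ) (ps : List ℕ) (j : ℕ) : laneL (X :: ps) (48 + j) = laneL ps j := by
  rw [laneL_eq, laneL_eq]
  have e1 : (48 + j) / 48 = j / 48 + 1 := by omega
  have e2 : (48 + j) % 48 = j % 48 := by omega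
  rw [e1, e2]
  rfl

theorem oLoop_true {g : ℕ → ℕ → Bool} : ∀ (ps cs : List ℕ), oLoop g ps cs = true →
    ∀ j, j < cs.length → ∃ c, g (laneL ps j) c = true
  | [], [], _ => fun j hj => absurd hj (Nat.not_lt_zero j)
  | [], _ :: _, h => absurd h Bool.false_ne_true
  | X :: ps, cs, h => by
    have h0 : iLoop g 48 X cs (oLoop g ps) = true := h
    obtain ⟨h1, h2⟩ := iLoop_true 48 X cs _ h0
    intro j hj
    by_cases h3 : j < 48
    · rw [laneL_cons X ps h3]
      exact h1 j h3 hj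
    · obtain ⟨i, rfl⟩ := Nat.exists_eq_add_of_le (not_lt.1 h3)
      rw [laneL_cons']
      refine oLoop_true ps (cs.drop 48) (h2 (by omega)) i ?_
      rw [List.length_drop]
      omega

/-- drop the first `m` pieces -/
def dropP (m : ℕ) : List ℕ → List ℕ :=
  @Nat.rec (fun _ => List ℕ → List ℕ) (fun ps => ps) (fun _ ih ps => ih (tl ps)) m

theorem laneL_tl (ps : List ℕ) (j : ℕ) : laneL (tl ps) j = laneL ps (48 + j) := by
  cases ps with
  | nil =>
    rw [laneL_eq, laneL_eq]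
    show fld 330 (([] : List ℕ).getD _ 0) _ = fld 330 (([] : List ℕ).getD _ 0) _
    rw [List.getD_nil, List.getD_nil]
    unfold fld
    rw [Nat.zero_div, Nat.zero_div]
  | cons X ps => exact (laneL_cons' X ps j).symm

theorem laneL_dropP : ∀ (m : ℕ) (ps : List ℕ) (j : ℕ),
    laneL (dropP m ps) j = laneL ps (48 * m + j)
  | 0, ps, j => by
    rw [Nat.mul_zero, Nat.zero_add]
    rfl
  | m + 1, ps, j => by
    have h : laneL (dropP m (tl ps)) j = laneL (tl ps) (48 * m + j) := laneL_dropP m (tl ps) j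
    have e : dropP (m + 1) ps = dropP m (tl ps) := rfl
    rw [e, h, laneL_tl]
    congr 1
    omega

/-! ## a slice -/

/-- the chain of the numbers of a root, forced -/
def chn (f1 f2 f3 : ℕ → ℕ) (f4 : ℕ → ℕ → ℕ → ℕ) (f5 : ℕ → ℕ)
    (g : ℕ → ℕ → ℕ → ℕ → ℕ → ℕ → Bool) (T l : ℕ) : Bool :=
  fo 1 T fun T => fo 2 (f1 T) fun T8 => fo 3 (f2 T8) fun DT => fo 4 l fun l =>
    fo 5 (Nat.add (f3 T) l) fun r => fo 6 (f4 T8 DT r) fun RW => fs (f5 r) fun a =>
      g T T8 DT r RW a

theorem chn_eq (f1 f2 f3 : ℕ → ℕ) (f4 : ℕ → ℕ → ℕ → ℕ) (f5 : ℕ → ℕ)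
    (g : ℕ → ℕ → ℕ → ℕ → ℕ → ℕ → Bool) (T l : ℕ) : chn f1 f2 f3 f4 f5 g T l =
      g T (f1 T) (f2 (f1 T)) (Nat.add (f3 T) l) (f4 (f1 T) (f2 (f1 T)) (Nat.add (f3 T) l))
        (f5 (Nat.add (f3 T) l)) := by
  unfold chn
  rw [fo_eq, fo_eq, fo_eq, fo_eq, fo_eq, fo_eq, fs_eq]

/-- the value of `MM` of a root -/
def mmR (r : ℕ) : ℕ := Nat.sub (Nat.mul 2 (popR r)) 114

/-- the pair word with the flags of the neighbours -/
def qB (RW T8 DT e : ℕ) : ℕ := setNb (pairK RW T8 DT e)

/-- the relative form with `b` first -/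
def rxB (a r b : ℕ) : ℕ → ℕ → ℕ → Bool := rx a b r

/-- **the check of a slice of the entries of a root**: type `T`, lane `l` of the root, pieces `ps`
of the row, first piece number `m`, certificates `cs` -/
noncomputable def bSlice (o : ℕ → SOps) (T l m : ℕ) (ps cs : List ℕ) : Bool :=
  chn tX degK (fun T => Nat.shiftLeft T 330) rootK mmR
    (fun T T8 DT r RW a => oLoop (gPair o (thr T r) (qB RW T8 DT) (rxB a r) a) (dropP m ps) cs)
    T l

theorem codeB_lt {T l : ℕ} (hT : T < 2 ^ 165) (hl : l < 2 ^ 330) : T * 2 ^ 330 + l < 2 ^ 495 := by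
  calc T * 2 ^ 330 + l < T * 2 ^ 330 + 2 ^ 330 := by omega
    _ = (T + 1) * 2 ^ 330 := by ring
    _ ≤ 2 ^ 165 * 2 ^ 330 := Nat.mul_le_mul_right _ hT
    _ = 2 ^ 495 := by rw [← pow_add]

theorem codeB_shift {T l : ℕ} (hl : l < 2 ^ 330) : (T * 2 ^ 330 + l) >>> 330 = T := by
  rw [Nat.shiftRight_eq_div_pow, Nat.mul_comm, Nat.mul_add_div (Nat.two_pow_pos 330),
    Nat.div_eq_of_lt hl, Nat.add_zero]

theorem card_root {T l : ℕ} (hT : T < 2 ^ 165) (hl : l < 2 ^ 330)
    {B : Finset (Finset (Fin 13))} (hB : OddCover B)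
    (h12 : link B 12 = fam 12 4 (T * 2 ^ 330 + l)) : MM B 12 = mmR (T * 2 ^ 330 + l) := by
  have e1 := two_mul_card_link hB 12
  have e2 : (12 : ℕ).choose 4 = 495 := by decide
  have c1 : (link B 12).card = popR (T * 2 ^ 330 + l) := by
    rw [h12]
    exact card_fam_eq (by norm_num) (by rw [e2]; exact codeB_lt hT hl)
      (by decide)
  have e3 : mmR (T * 2 ^ 330 + l) = 2 * popR (T * 2 ^ 330 + l) - 114 := rfl
  rw [e3, ← c1]
  omega

theorem pairB_sound {o : ℕ → SOps} (ho : ∀ s, s ≤ 10 → SOK (o s) (CB s) PW) {T l e c : ℕ}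
    (hT : T < 2 ^ 165) (hl : l < 2 ^ 330) (he : e < 2 ^ 330)
    (h : gPair o (thr T (T * 2 ^ 330 + l)) (qB (rootK (tW T) (degK (tW T)) (T * 2 ^ 330 + l))
      (tW T) (degK (tW T))) (rxB (mmR (T * 2 ^ 330 + l)) (T * 2 ^ 330 + l))
      (mmR (T * 2 ^ 330 + l)) e c = true) :
    PDead QP (T * 2 ^ 330 + l) (cone 11 (fam 11 4 e)) := by
  refine gPair_sound ho (fun B e hQ he h12 h11 => sum_of_frame hQ.best.odd hT hl he h12 h11)
    (fun B hB h12 => card_root hT hl hB h12) ?_
    (fun B b k m e hP h12 h11 h1 => rx_sound h1 B hP h12 h11) he h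
  intro B e hQ he h12 h11
  have h4 := pw_pairK hQ.best.odd (codeB_lt hT hl) he h12 h11
  rw [codeB_shift hl] at h4
  have hC : CB (MM B 12 + MM B 11) B := ⟨hQ, rfl⟩
  exact setNb_pw' hQ.best.odd hQ.best.le h4 hC.heavy

/-- **a slice of the entries of a root is dead** -/
theorem bSlice_sound {o : ℕ → SOps} (ho : ∀ s, s ≤ 10 → SOK (o s) (CB s) PW) {T l m : ℕ}
    (hT : T < 2 ^ 165) (hl : l < 2 ^ 330) {ps cs : List ℕ} (h : bSlice o T l m ps cs = true) :
    ∀ j, 48 * m ≤ j → j < 48 * m + cs.length →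
      PDead QP (T * 2 ^ 330 + l) (cone 11 (fam 11 4 (laneL ps j))) := by
  unfold bSlice at h
  rw [chn_eq] at h
  have e1 : Nat.add ((fun T => Nat.shiftLeft T 330) T) l = T * 2 ^ 330 + l := by
    show T <<< 330 + l = _
    rw [Nat.shiftLeft_eq]
  rw [e1, tX_eq hT] at h
  intro j h1 h2
  obtain ⟨i, rfl⟩ := Nat.exists_eq_add_of_le h1
  obtain ⟨c, hc⟩ := oLoop_true (dropP m ps) cs h i (by omega)
  rw [laneL_dropP] at hc
  exact pairB_sound ho hT hl (laneL_lt _ _) hc

end Pool.Agent.Helper8.TY
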