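import Pool.Agent.Helper8.TY.BCol
import Pool.Agent.Gen.TY.B1.Pos
import Pool.Agent.Helper79.CV.FCls
import Pool.Agent.Helper16.TY.RunFin

/-!
MP_8ee768_co, project TH-Y', stage B1b: `StB1b` from the tables and the units.
-/

set_option autoImplicit false
set_option maxRecDepth 100000
set_option exponentiation.threshold 1000

namespace Pool.Agent.Helper8.TY

open Finset
open Pool.Agent.Helper97.CV Pool.Agent.Helper79.CV
open Pool.Agent.Helper4.CV Pool.Agent.Helper33.TY Pool.Agent.Helper7.TY
open Pool.Agent.Helper82.TY (popR)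
open Pool.Agent.Helper47.TY (card_fam_eq)
open Pool.Agent.Helper49.TY (QP)
open Pool.Agent.Helper7.TB (laneL typF typF_eq nlF nlF_eq laneF laneF_eq laneF_lt)
open Pool.Agent.Gen.TY.B1.Pos (roots posB typF_lt)

/-- range of the type of a root, its pair link has 21 blocks -/
noncomputable def rtOK (x : ℕ × ℕ) : Bool :=
  Nat.ble 2 x.1 && (Nat.blt x.1 5074 && Nat.beq (popR (typF x.1)) 21)

theorem roots_ok : roots.all rtOK = true := by decide +kernel

theorem root_range {x : ℕ × ℕ} (hx : x ∈ roots) :
    InR 5074 x.1 ∧ (fam 11 3 (typF x.1)).card = 21 := by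
  have h := List.all_eq_true.1 roots_ok x hx
  unfold rtOK at h
  rw [Bool.and_eq_true, Bool.and_eq_true, Nat.ble_eq, Nat.blt_eq, Nat.beq_eq] at h
  refine ⟨⟨h.1, h.2.1⟩, ?_⟩
  have e : (11 : ℕ).choose 3 = 165 := by decide
  rw [card_fam_eq (by norm_num) (by rw [e]; exact typF_lt x.1) (by decide)]
  exact h.2.2

/-- **stage B1b** from the classes, the tables of the pair links, the glued table and the units -/
theorem stB1b_main (hroot : RootOK 6 (fun _ => True) Pool.Agent.Helper16.TY.reps)
    (hT : ∀ t, InR 5074 t → (fam 11 3 (typF t)).card ≠ 19 →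
      TableOK (typF t) 6 (fun _ => True) {E | ∃ i < nlF t, E = fam 11 4 (laneF t i)})
    (H : BHyp) {us : List (ℕ × ℕ × ℕ × ℕ)} (hU : AllU us)
    (hc : covL nlF us roots 0 = true) : StB1b := by
  refine stB1b_of_roots (clsOK_repsF hroot) (nl := nlF) typF_lt laneF_lt posB ?_ ?_
  · intro x hx
    obtain ⟨h1, h2⟩ := root_range hx
    exact hT x.1 h1 (by omega)
  · intro x hx j hj
    have h := dead_of_units H hU hc x hx j hj
    rw [typF_eq, laneF_eq, laneF_eq]
    exact h

end Pool.Agent.Helper8.TY
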