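import Pool.Agent.Helper8.TY.BFrame
import Pool.Agent.Helper7.TY.Flags
import Pool.Agent.Helper44.TY.Iso

/-!
MP_8ee768_co, project TH-Y', stage B1b: the positions of excess 1 of the reduced classes.

Data: for every reduced class of `repsF` a list of records (point, type, lane, 66 bits of
helper16's network) in helper7's packing, one for each point whose link has 21 blocks. The check
runs the network on all records of a chunk at once.
-/

set_option autoImplicit false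
set_option maxRecDepth 100000
set_option exponentiation.threshold 1000

namespace Pool.Agent.Helper8.TY

open Finset
open Pool.Agent.Helper89.CV (OddCover ofMask)
open Pool.Agent.Helper97.CV
open Pool.Agent.Helper79.CV
open Pool.Agent.Helper33.CV
open Pool.Agent.Helper63.SIMD
open Pool.Agent.Helper16.TY
open Pool.Agent.Helper7.TY
open Pool.Agent.Helper82.TY (pop popR popc force supM force_eq popR_eq_pop cnt_eq_pop)

/-- range of the class code and of the point -/
def okB (x : ℕ × ℕ) : Bool := Nat.beq (Nat.shiftRight x.1 495) 0 && Nat.blt (rP x.2) 12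

/-- start code with marker -/
def startB (x : ℕ × ℕ) : ℕ := Nat.add (Nat.shiftLeft 1 (Nat.add 495 (rP x.2))) x.1

/-- the check of `N` records `(code of the class, record)` -/
def recB (ty : ℕ → ℕ) (ln : ℕ → ℕ → ℕ) (N : ℕ) (xs : List (ℕ × ℕ)) : Bool :=
  Nat.beq xs.length N && (xs.all okB &&
    Nat.beq (runN (rep 512 N) net (packL 512 (xs.map fun x => rC x.2))
      (packL 512 (xs.map startB))) (packL 512 (xs.map (endC ty ln))))

theorem okB_true {x : ℕ × ℕ} (h : okB x = true) : x.1 < 2 ^ 495 ∧ rP x.2 < 12 := by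
  unfold okB at h
  rw [Bool.and_eq_true, Nat.blt_eq] at h
  refine ⟨?_, h.2⟩
  have h1 : x.1 >>> 495 = 0 := Nat.eq_of_beq_eq_true h.1
  rw [Nat.shiftRight_eq_div_pow] at h1
  by_contra h2
  have h3 := Nat.div_pos (not_lt.1 h2) (Nat.two_pow_pos 495)
  omega

theorem recB_sound {ty : ℕ → ℕ} {ln : ℕ → ℕ → ℕ} {N : ℕ} {xs : List (ℕ × ℕ)}
    (hty : ∀ t, ty t < 2 ^ 165) (hln : ∀ t i, ln t i < 2 ^ 330)
    (h : recB ty ln N xs = true) : ∀ x ∈ xs, ∃ ψ : Equiv.Perm (Fin 13), ψ 12 = 12 ∧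
      (∃ p : Fin 13, p.val = rP x.2 ∧ ψ p = 11) ∧
        mapF ψ (fam 12 4 x.1) = fam 12 4 (ty (rT x.2) * 2 ^ 330 + ln (rT x.2) (rI x.2)) := by
  unfold recB at h
  rw [Bool.and_eq_true, Bool.and_eq_true, Nat.beq_eq, Nat.beq_eq, List.all_eq_true] at h
  obtain ⟨h1, h2, h3⟩ := h
  intro x hx
  obtain ⟨hx1, hx2⟩ := okB_true (h2 x hx)
  obtain ⟨k, hk, hkx⟩ := List.mem_iff_getElem.1 hx
  have hlt1 : ∀ a ∈ xs.map startB, a < 2 ^ 512 := by
    intro a ha
    obtain ⟨y, hy, rfl⟩ := List.mem_map.1 ha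
    obtain ⟨h7, h5⟩ := okB_true (h2 y hy)
    show 1 <<< (495 + rP y.2) + y.1 < 2 ^ 512
    rw [Nat.shiftLeft_eq, one_mul]
    have h6 : 2 ^ (495 + rP y.2) ≤ 2 ^ 506 := Nat.pow_le_pow_right (by norm_num) (by omega)
    have h8 : (2 : ℕ) ^ 506 + 2 ^ 495 < 2 ^ 512 := by decide +kernel
    omega
  have hval : ∀ y : ℕ × ℕ, endC ty ln y = 2 ^ 506 + (ty (rT y.2) * 2 ^ 330 +
      ln (rT y.2) (rI y.2)) := by
    intro y
    show 1 <<< 506 + (ty (rT y.2) <<< 330 + ln (rT y.2) (rI y.2)) = _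
    rw [Nat.shiftLeft_eq, Nat.shiftLeft_eq, one_mul]
  have hle : ∀ t i, ty t * 2 ^ 330 + ln t i < 2 ^ 495 := by
    intro t i
    have h5 := hty t
    have h6 := hln t i
    calc ty t * 2 ^ 330 + ln t i < ty t * 2 ^ 330 + 2 ^ 330 := by omega
      _ = (ty t + 1) * 2 ^ 330 := by ring
      _ ≤ 2 ^ 165 * 2 ^ 330 := Nat.mul_le_mul_right _ h5
      _ = 2 ^ 495 := (pow_add 2 165 330).symm
  have hlt2 : ∀ a ∈ xs.map (endC ty ln), a < 2 ^ 512 := by
    intro a ha
    obtain ⟨y, -, rfl⟩ := List.mem_map.1 ha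
    rw [hval]
    have h6 := hle (rT y.2) (rI y.2)
    have h8 : (2 : ℕ) ^ 506 + 2 ^ 495 < 2 ^ 512 := by decide +kernel
    omega
  set p : Fin 13 := ⟨rP x.2, by omega⟩ with hp
  have hp12 : p ≠ 12 := by
    intro h5
    have h6 : rP x.2 = 12 := congrArg Fin.val h5
    omega
  have hX : fld 512 (packL 512 (xs.map startB)) k = code (fam 12 4 x.1) {{p}} := by
    rw [fld_packL hlt1 (by rw [List.length_map]; exact hk), List.getElem_map, hkx]
    show 1 <<< (495 + rP x.2) + x.1 = _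
    unfold code
    rw [enc_marker p hp12, enc_fam (n := 12) (k := 4) (by norm_num) hx1, Nat.shiftLeft_eq,
      one_mul, pow_add]
  obtain ⟨ψ, hψ, h5⟩ := net_sound (P := packL 512 (xs.map fun x => rC x.2)) (N := N) (i := k)
    (by rw [← h1]; exact hk) hX
  rw [h3, fld_packL hlt2 (by rw [List.length_map]; exact hk), List.getElem_map, hkx, hval,
    mapF_marker] at h5
  set e := ty (rT x.2) * 2 ^ 330 + ln (rT x.2) (rI x.2) with he
  have h6 : code (fam 12 4 e) {{11}} = code (mapF ψ (fam 12 4 x.1)) {{ψ p}} := by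
    rw [← h5]
    unfold code
    rw [enc_marker 11 (by decide), enc_fam (n := 12) (k := 4) (by norm_num) (hle _ _)]
    have e1 : ((11 : Fin 13).val) = 11 := rfl
    rw [e1, ← pow_add]
  have hψp : ψ p ≠ 12 := fun h7 => hp12 (ψ.injective (h7.trans hψ.symm))
  obtain ⟨h7, h8⟩ := of_code_eq (by decide) hψp
    (fun s hs => sub_of_mem_fam (by norm_num) hs)
    (fun s hs => by
      rw [mem_mapF'] at hs
      have h9 := (keeps_of_fix hψ).sub (sub_of_mem_fam (by norm_num) hs)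
      rwa [mapS_mapS_symm] at h9) h6
  exact ⟨ψ, hψ, ⟨p, rfl, h8.symm⟩, h7.symm⟩

/-! ## the classes -/

/-- every point of the class has a record or its link has not 21 blocks -/
def clsB (st : List (ℕ × ℕ)) (x : ℕ × List ℕ) : Bool :=
  force x.1 fun R =>
    st.all fun s => x.2.any (fun r => Nat.beq (rP r) s.1) ||
      !(Nat.beq (popR (Nat.land R s.2)) 21)

theorem clsB_sound {x : ℕ × List ℕ} (hx : x.1 < 2 ^ 495) (h : clsB stars x = true)
    {p : Fin 13} (hp : p ≠ 12) (hc : (link (fam 12 4 x.1) p).card = 21) :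
    ∃ r ∈ x.2, rP r = p.val := by
  unfold clsB at h
  rw [force_eq, List.all_eq_true] at h
  have hp' : p.val < 12 := by
    have h1 : p.val ≠ 12 := fun h1 => hp (Fin.ext h1)
    omega
  have h1 := h (p.val, supM 12 4 (2 ^ p.val))
    (List.mem_map.2 ⟨p.val, List.mem_range.2 hp', rfl⟩)
  rw [Bool.or_eq_true, List.any_eq_true] at h1
  rcases h1 with h2 | h2
  · obtain ⟨r, hr, h3⟩ := h2
    exact ⟨r, hr, Nat.eq_of_beq_eq_true h3⟩
  · exfalso
    have h3 := cnt_eq_pop (n := 12) (k := 4) (t := 2 ^ p.val) (by norm_num)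
      (Nat.pow_lt_pow_right (by norm_num) p.isLt) (D := fam 12 4 x.1)
      (fun s hs => sub_of_mem_fam (by norm_num) hs)
    rw [ofMask_two_pow, enc_fam (n := 12) (k := 4) (by norm_num) hx, ← popR_eq_pop] at h3
    rw [card_link] at hc
    rw [h3] at hc
    have h4 : Nat.beq (popR (Nat.land x.1 (supM 12 4 (2 ^ p.val)))) 21 = true := by
      rw [Nat.beq_eq]
      exact hc
    rw [h4] at h2
    exact Bool.false_ne_true h2

/-! ## chunks -/

/-- number of a root in a record -/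
def rRt (r : ℕ) : ℕ := Nat.land (Nat.shiftRight r 66) 0x7ffffff

/-- type and lane of a root number -/
def dcR (v : ℕ) : ℕ × ℕ := (Nat.shiftRight v 14, Nat.land v 0x3fff)

/-- the check of a chunk of classes; `rt` list of the numbers of the roots -/
noncomputable def chB (rt : List ℕ) (st : List (ℕ × ℕ)) (ty : ℕ → ℕ) (ln : ℕ → ℕ → ℕ) (N : ℕ)
    (cs : List (ℕ × List ℕ)) : Bool :=
  (cs.all fun x => Nat.beq (Nat.shiftRight x.1 495) 0 && clsB st x) &&
    ((recsOf cs).all (fun x => Pool.Agent.Helper44.TY.memN rt (rRt x.2)) &&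
      recB ty ln N (recsOf cs))

theorem rT_rRt (r : ℕ) : (dcR (rRt r)).1 = rT r := by
  show ((r >>> 66) &&& 0x7ffffff) >>> 14 = (r >>> 80) &&& 0x1fff
  rw [Nat.shiftRight_and_distrib, ← Nat.shiftRight_add]
  rfl

theorem rI_rRt (r : ℕ) : (dcR (rRt r)).2 = rI r := by
  show ((r >>> 66) &&& 0x7ffffff) &&& 0x3fff = (r >>> 66) &&& 0x3fff
  rw [Nat.and_assoc]
  rfl

/-- every position of excess 1 of the class `r` is carried to a root -/
def PosR (typ : ℕ → ℕ) (ln : ℕ → ℕ → ℕ) (roots : List (ℕ × ℕ)) (r : ℕ) : Prop :=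
  ∀ p : Fin 13, p ≠ 12 → (link (fam 12 4 r) p).card = 21 → ∃ x ∈ roots,
    ∃ ψ : Equiv.Perm (Fin 13), ψ 12 = 12 ∧ ψ p = 11 ∧
      mapF ψ (fam 12 4 r) = fam 12 4 (typ x.1 * 2 ^ 330 + ln x.1 x.2)

theorem chB_sound {rt : List ℕ} {ty : ℕ → ℕ} {ln : ℕ → ℕ → ℕ} {N : ℕ}
    {cs : List (ℕ × List ℕ)} (hty : ∀ t, ty t < 2 ^ 165) (hln : ∀ t i, ln t i < 2 ^ 330)
    (h : chB rt stars ty ln N cs = true) : ∀ x ∈ cs, PosR ty ln (rt.map dcR) x.1 := by
  unfold chB at h
  rw [Bool.and_eq_true, Bool.and_eq_true, List.all_eq_true, List.all_eq_true] at h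
  obtain ⟨h1, h2, h3⟩ := h
  intro x hx p hp hc
  have h4 := h1 x hx
  rw [Bool.and_eq_true] at h4
  have hx1 : x.1 < 2 ^ 495 := by
    have h5 : x.1 >>> 495 = 0 := Nat.eq_of_beq_eq_true h4.1
    rw [Nat.shiftRight_eq_div_pow] at h5
    by_contra h6
    have h7 := Nat.div_pos (not_lt.1 h6) (Nat.two_pow_pos 495)
    omega
  obtain ⟨r, hr, hrp⟩ := clsB_sound hx1 h4.2 hp hc
  have hm := mem_recsOf hx hr
  obtain ⟨ψ, h12, ⟨q, hq, hq11⟩, hE⟩ := recB_sound hty hln h3 _ hm
  have hqp : q = p := Fin.ext (by rw [hq]; exact hrp)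
  subst hqp
  have h6 := h2 _ hm
  rw [Pool.Agent.Helper44.TY.memN_iff] at h6
  refine ⟨dcR (rRt r), List.mem_map.2 ⟨_, h6, rfl⟩, ψ, h12, hq11, ?_⟩
  rw [rT_rRt, rI_rRt]
  exact hE

/-- all classes of a list are carried to roots -/
def PosL (typ : ℕ → ℕ) (ln : ℕ → ℕ → ℕ) (roots : List (ℕ × ℕ)) (cs : List (ℕ × List ℕ)) : Prop :=
  ∀ x ∈ cs, PosR typ ln roots x.1

theorem PosL.append {typ : ℕ → ℕ} {ln : ℕ → ℕ → ℕ} {roots : List (ℕ × ℕ)}
    {cs cs' : List (ℕ × List ℕ)} (h : PosL typ ln roots cs) (h' : PosL typ ln roots cs') :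
    PosL typ ln roots (cs ++ cs') := by
  intro x hx
  rcases List.mem_append.1 hx with hx | hx
  · exact h x hx
  · exact h' x hx

/-! ## the reduced classes -/

/-- the codes with witness 0 -/
def zipF (rs : List ℕ) : List ℕ → List ℕ :=
  @List.rec ℕ (fun _ => List ℕ → List ℕ) (fun _ => [])
    (fun r _ ih ws => @List.rec ℕ (fun _ => List ℕ) [] (fun w ws' _ =>
      @Bool.rec (fun _ => List ℕ) (ih ws') (r :: ih ws') (Nat.beq w 0)) ws) rs

theorem mem_zipF : ∀ (rs ws : List ℕ) (j r : ℕ), rs[j]? = some r → j < ws.length →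
    ws.getD j 0 = 0 → r ∈ zipF rs ws
  | [], _, _, _, h, _, _ => absurd h (by simp)
  | _ :: _, [], _, _, _, h, _ => absurd h (Nat.not_lt_zero _)
  | a :: rs, w :: ws, 0, r, h, _, h0 => by
    have e1 : a = r := Option.some.inj h
    have e2 : w = 0 := h0
    rw [e1, e2]
    exact List.mem_cons_self
  | a :: rs, w :: ws, j + 1, r, h, hl, h0 => by
    have h1 := mem_zipF rs ws j r h (Nat.lt_of_succ_lt_succ hl) h0
    have e : zipF (a :: rs) (w :: ws) = @Bool.rec (fun _ => List ℕ) (zipF rs ws)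
      (a :: zipF rs ws) (Nat.beq w 0) := rfl
    rw [e]
    cases Nat.beq w 0
    · exact h1
    · exact List.mem_cons_of_mem _ h1

/-- **`PosB` from the list of the reduced classes** -/
theorem posB_of {typ : ℕ → ℕ} {ln : ℕ → ℕ → ℕ} {roots : List (ℕ × ℕ)}
    (hl : witF.length = 466) (h : ∀ r ∈ zipF repsF witF, PosR typ ln roots r) :
    PosB typ ln roots := by
  intro j r hr hj p hp hc
  refine h r ?_ p hp hc
  refine mem_zipF _ _ j r hr ?_ (Nat.eq_of_beq_eq_true hj)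
  obtain ⟨h1, -⟩ := List.getElem?_eq_some_iff.1 hr
  rw [length_repsF] at h1
  rw [hl]
  exact h1

/-- **`PosB` from the checks** -/
theorem posB_of_list {typ : ℕ → ℕ} {ln : ℕ → ℕ → ℕ} {roots : List (ℕ × ℕ)}
    {cs : List (ℕ × List ℕ)} (h : PosL typ ln roots cs) (hl : witF.length = 466)
    (hm : cs.map Prod.fst = zipF repsF witF) : PosB typ ln roots := by
  refine posB_of hl fun r hr => ?_
  rw [← hm, List.mem_map] at hr
  obtain ⟨x, hx, rfl⟩ := hr
  exact h x hx

end Pool.Agent.Helper8.TY
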