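import Pool.Agent.Helper8.TY.PE
import Pool.Agent.Helper25.TY.Rx

/-!
MP_8ee768_co, project TH-Y', stage B1b: helper25's check `rx` of the relative form is sound in the
context `PE` (the proofs are his, with `pe_three` in the place of `twoS_three`).
-/

set_option autoImplicit false
set_option exponentiation.threshold 600

namespace Pool.Agent.Helper8.TY

open Finset
open Pool.Agent.Helper89.CV (OddCover ofMask)
open Pool.Agent.Helper97.CV Pool.Agent.Helper79.CV
open Pool.Agent.Helper82.TY (below Best)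
open Pool.Agent.Helper4.CV Pool.Agent.Helper33.TY
open Pool.Agent.Helper25.TY hiding pdead_low pdead_high pdead_high' rxLow_sound rxHigh_sound rx_sound

/-- (1) five points outside the pair -/
theorem pdead_low {a b : ℕ} {r : ℕ} {u : Finset (Finset (Fin 13))}
    {V : Finset (Fin 13)} (hV : V.card = 5) (hVR : V ⊆ R11)
    (h3 : 3 ≤ ((V.powersetCard 4).filter (fun s => insert 11 s ∈ u)).card) :
    PDead (fun B x y => PE B x y a b) r u := by
  intro B h hl hu
  have h' : PE B 12 11 a b := h
  obtain ⟨h12, h11⟩ := notMem_of_R11 hVR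
  have h4 : (V.powersetCard 4).filter (fun s => insert 11 s ∈ u) ⊆
      link B 11 ∩ V.powersetCard 4 := by
    intro s hs
    rw [mem_filter, mem_powersetCard] at hs
    rw [mem_inter, mem_powersetCard]
    refine ⟨(mem_linkY_low (fun h => h12 (hs.1.1 h)) (fun h => h11 (hs.1.1 h))).2 ?_, hs.1⟩
    rw [hu]
    exact hs.2
  exact h12 (pe_three h' hV h11 (h3.trans (card_le_card h4))).1

/-- (2) four points outside the pair and `12` -/
theorem pdead_high {a b : ℕ} {r : ℕ} {u : Finset (Finset (Fin 13))}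
    {W : Finset (Fin 13)} (hW : W.card = 4) (hWR : W ⊆ R11) (hWu : insert 11 W ∉ u)
    (h3 : 3 ≤ ((W.powersetCard 3).filter (fun t => insert 11 t ∈ fam 12 4 r)).card) :
    PDead (fun B x y => PE B x y a b) r u := by
  intro B h hl hu
  have h' : PE B 12 11 a b := h
  obtain ⟨h12, h11⟩ := notMem_of_R11 hWR
  have h4 := card_high hl hu hW hWR
  rw [if_neg hWu] at h4
  have e11 : (11 : Fin 13) ∉ insert 12 W := by
    rw [mem_insert]
    rintro (h1 | h1)
    · exact absurd h1 (by decide)
    · exact h11 h1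
  have h5 := (pe_three h' (by rw [card_insert_of_notMem h12, hW]) e11
    (by omega)).2.1
  rw [erase_insert h12, mem_linkY_low h12 h11, hu] at h5
  exact hWu h5

/-- (3) the same if no point is lower than `11` -/
theorem pdead_high' {a b : ℕ} (hab : b < a + 2) {r : ℕ}
    {u : Finset (Finset (Fin 13))} {W : Finset (Fin 13)} (hW : W.card = 4) (hWR : W ⊆ R11)
    (h3 : 3 ≤ ((W.powersetCard 3).filter (fun t => insert 11 t ∈ fam 12 4 r)).card +
      (if insert 11 W ∈ u then 1 else 0)) :
    PDead (fun B x y => PE B x y a b) r u := by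
  intro B h hl hu
  have h' : PE B 12 11 a b := h
  obtain ⟨h12, h11⟩ := notMem_of_R11 hWR
  have h4 := card_high hl hu hW hWR
  have e11 : (11 : Fin 13) ∉ insert 12 W := by
    rw [mem_insert]
    rintro (h1 | h1)
    · exact absurd h1 (by decide)
    · exact h11 h1
  have h5 := (pe_three h' (by rw [card_insert_of_notMem h12, hW]) e11
    (by omega)).2.2
  omega

theorem rxLow_sound {a b r m e : ℕ} (h : rxLow m e = true) :
    PDead (fun B x y => PE B x y a b) r (cone 11 (fam 11 4 e)) := by
  unfold rxLow at h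
  rw [beq_land_one, Bool.and_eq_true, Bool.and_eq_true, Bool.and_eq_true, Nat.blt_eq, Nat.blt_eq,
    Nat.blt_eq] at h
  obtain ⟨h1, h2, h3, h4⟩ := h
  obtain ⟨i, j, k, hij, hik, hjk, hi, hj, hk⟩ := three_bits (Nat.pos_iff_ne_zero.1 h4)
  obtain ⟨hi1, hi2, hi3, hi4⟩ := quad_mem h3 hi
  obtain ⟨hj1, hj2, hj3, hj4⟩ := quad_mem h3 hj
  obtain ⟨hk1, hk2, hk3, hk4⟩ := quad_mem h3 hk
  refine pdead_low (V := ofMask m) (w5_ok m h1 h2) ?_ ?_
  · intro x hx
    rw [mem_R11]
    rw [mem_ofMask] at hx
    exact bit_lt (n := 11) (by norm_num; omega) hx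
  · exact card_three hi1 hj1 hk1 hij hik hjk
      (mem_filter.2 ⟨mem_powersetCard.2 ⟨hi2, hi3⟩, hi4⟩)
      (mem_filter.2 ⟨mem_powersetCard.2 ⟨hj2, hj3⟩, hj4⟩)
      (mem_filter.2 ⟨mem_powersetCard.2 ⟨hk2, hk3⟩, hk4⟩)

theorem rxHigh_sound {a b r m e : ℕ} (h : rxHigh a b r m e = true) :
    PDead (fun B x y => PE B x y a b) r (cone 11 (fam 11 4 e)) := by
  unfold rxHigh at h
  rw [beq_land_one, Bool.and_eq_true, Bool.and_eq_true, Bool.and_eq_true, Bool.and_eq_true, Nat.blt_eq,
    Nat.blt_eq, Nat.blt_eq] at h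
  obtain ⟨h1, h2, h3, h4, h5⟩ := h
  have hW := w4_ok m h1 h2
  have hWR : ofMask m ⊆ R11 := by
    intro x hx
    rw [mem_R11]
    rw [mem_ofMask] at hx
    exact bit_lt (n := 11) (by norm_num; omega) hx
  -- three triples
  have c3 : Nat.blt 0 (cl (cl (inV av3 m (Nat.shiftRight r 330)))) = true →
      3 ≤ (((ofMask m).powersetCard 3).filter (fun t => insert 11 t ∈ fam 12 4 r)).card := by
    intro h6
    rw [Nat.blt_eq] at h6
    obtain ⟨i, j, k, hij, hik, hjk, hi, hj, hk⟩ := three_bits (Nat.pos_iff_ne_zero.1 h6)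
    obtain ⟨hi1, hi2, hi3, hi4⟩ := triple_mem h4 hi
    obtain ⟨hj1, hj2, hj3, hj4⟩ := triple_mem h4 hj
    obtain ⟨hk1, hk2, hk3, hk4⟩ := triple_mem h4 hk
    exact card_three hi1 hj1 hk1 hij hik hjk
      (mem_filter.2 ⟨mem_powersetCard.2 ⟨hi2, hi3⟩, hi4⟩)
      (mem_filter.2 ⟨mem_powersetCard.2 ⟨hj2, hj3⟩, hj4⟩)
      (mem_filter.2 ⟨mem_powersetCard.2 ⟨hk2, hk3⟩, hk4⟩)
  have c2 : Nat.blt 0 (cl (inV av3 m (Nat.shiftRight r 330))) = true →
      2 ≤ (((ofMask m).powersetCard 3).filter (fun t => insert 11 t ∈ fam 12 4 r)).card := by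
    intro h6
    rw [Nat.blt_eq] at h6
    obtain ⟨i, j, hij, hi, hj⟩ := two_bits (Nat.pos_iff_ne_zero.1 h6)
    obtain ⟨hi1, hi2, hi3, hi4⟩ := triple_mem h4 hi
    obtain ⟨hj1, hj2, hj3, hj4⟩ := triple_mem h4 hj
    exact card_two hi1 hj1 hij
      (mem_filter.2 ⟨mem_powersetCard.2 ⟨hi2, hi3⟩, hi4⟩)
      (mem_filter.2 ⟨mem_powersetCard.2 ⟨hj2, hj3⟩, hj4⟩)
  -- the quad
  have cq : Nat.blt 0 (inV av4 m e) = true → insert 11 (ofMask m) ∈ cone 11 (fam 11 4 e) := by
    intro h6
    rw [Nat.blt_eq] at h6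
    obtain ⟨i, hi⟩ := Nat.exists_testBit_of_ne_zero (Nat.pos_iff_ne_zero.1 h6)
    obtain ⟨hi1, hi2, hi3, hi4⟩ := quad_mem h3 hi
    have h7 : ofMask (L 11 4)[i] = ofMask m := eq_of_subset_of_card_le hi2 (by rw [hi3, hW])
    rw [h7] at hi4
    exact hi4
  have cn : Nat.beq (inV av4 m e) 0 = true → insert 11 (ofMask m) ∉ cone 11 (fam 11 4 e) := by
    intro h6 h7
    rw [Nat.beq_eq] at h6
    have hE : ∀ s ∈ fam 11 4 e, (11 : Fin 13) ∉ s := by
      intro s hs h8
      have h9 := (sub_of_mem_fam (by norm_num) hs).1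
      exact absurd (mk_lt_iff.1 h9 11 h8) (by decide)
    rw [mem_cone hE, erase_insert (fun h => absurd (mem_R11.1 (hWR h)) (by decide)),
      mem_fam] at h7
    obtain ⟨i, hi, h8, h9⟩ := h7.2
    have h10 : (inV av4 m e).testBit i = true := by
      have key : ∀ t : List (ℕ × ℕ), (∀ p ∈ t, p ∈ av4) → (inV t m e).testBit i = true := by
        intro t
        induction t with
        | nil => exact fun _ => h8
        | cons p t ih =>
          intro ht
          have h11 := ih fun q hq => ht q (List.mem_cons_of_mem _ hq)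
          show (cond (Nat.beq (Nat.land (Nat.shiftRight m p.1) 1) 1) (inV t m e)
            (Nat.land (inV t m e) p.2)).testBit i = true
          rw [beq_land_one]
          cases hm : m.testBit p.1
          · rw [cond_false]
            show ((inV t m e) &&& p.2).testBit i = true
            rw [Nat.testBit_and, h11, Bool.true_and]
            obtain ⟨u, hu, h12⟩ := List.getElem_of_mem (ht p List.mem_cons_self)
            obtain ⟨h13, h14⟩ := av4_ok.2 u hu
            rw [← h12, h14 i hi]
            rw [← h12, h13] at hm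
            have hu11 : u < 11 := by
              rw [← av4_ok.1]
              exact hu
            have h15 : (L 11 4)[i].testBit u = m.testBit u := by
              have h16 := congrArg (fun s => decide ((⟨u, by omega⟩ : Fin 13) ∈ s)) h9
              simp only [mem_ofMask] at h16
              simpa using h16
            rw [h15, hm]
            rfl
          · rw [cond_true]
            exact h11
      exact key av4 fun _ h => h
    rw [h6, Nat.zero_testBit] at h10
    exact Bool.false_ne_true h10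
  by_cases hab : Nat.blt b (Nat.add a 2) = true
  · rw [hab, cond_true, Bool.or_eq_true, Bool.and_eq_true] at h5
    rw [Nat.blt_eq] at hab
    refine pdead_high' hab hW hWR ?_
    rcases h5 with h5 | h5
    · have := c3 h5
      omega
    · have h6 := c2 h5.1
      rw [if_pos (cq h5.2)]
      omega
  · rw [Bool.not_eq_true] at hab
    rw [hab, cond_false, Bool.and_eq_true] at h5
    exact pdead_high hW hWR (cn h5.2) (c3 h5.1)

/-- **the check of the relative form** -/
theorem rx_sound {a b r : ℕ} {k m e : ℕ} (h : rx a b r k m e = true) :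
    PDead (fun B x y => PE B x y a b) r (cone 11 (fam 11 4 e)) := by
  unfold rx at h
  cases hk : Nat.beq k 0
  · rw [hk, cond_false] at h
    exact rxHigh_sound h
  · rw [hk, cond_true] at h
    exact rxLow_sound h

end Pool.Agent.Helper8.TY
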