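import Pool.Agent.Helper8.TY.BEng
import Pool.Agent.Helper67.GT.Rows
import Pool.Agent.Helper59.GC.Top

/-!
MP_8ee768_co, project TH-Y', stage B1b: the unit with the tables.

`bU t i m cs` checks the lanes `48 * m, 48 * m + 1, ..` of the row of the type `t` against the root
lane `i` of the same row; `cs` has one certificate for each lane. A lane is skipped if its value of
`MM` is smaller than that of the root (its certificate is any number, for example 0).
-/

set_option autoImplicit false

namespace Pool.Agent.Helper8.TY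

open Pool.Agent.Helper97.CV Pool.Agent.Helper79.CV
open Pool.Agent.Helper4.CV Pool.Agent.Helper33.TY
open Pool.Agent.Helper49.TY (QP)
open Pool.Agent.Helper7.TB (laneL laneL_lt typ typ_lt rowP)
open Pool.Agent.Helper67.GT (NT gP gN gPiece)
open Pool.Agent.Helper59.GC (gC)
open Pool.Agent.Helper59.TY (gath tA tB)
open Pool.Agent.Helper67.TY (GluedOK)
open Pool.Agent.Helper28.TY (rlanes)

/-- **the unit of stage B1b** -/
noncomputable def bU (t i m : ℕ) (cs : List ℕ) : Bool :=
  bSlice (bops NT gC gPiece gP gN) (typ t) (laneL (rowP t) i) m (rowP t) cs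

theorem bU_sound {G : ℕ → ℕ} (hglue : GluedOK NT G (rlanes gPiece gP gN))
    (htie : ∀ t < NT, gath (tA (gC t)) (tB (gC t)) = G t) {t i m : ℕ} {cs : List ℕ}
    (h : bU t i m cs = true) : ∀ j, 48 * m ≤ j → j < 48 * m + cs.length →
      PDead QP (typ t * 2 ^ 330 + laneL (rowP t) i) (cone 11 (fam 11 4 (laneL (rowP t) j))) :=
  bSlice_sound (sok_bops hglue htie) (typ_lt t) (laneL_lt _ _) h

end Pool.Agent.Helper8.TY
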