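import Pool.Agent.Helper49.TY.StageE
import Pool.Agent.Helper25.TY.SCtx

/-!
MP_8ee768_co, project TH-Y', stage B1b: the context.

`PE B x y a b` is helper49's configuration `QP` of stage B1b (edge `x y` of excess 1, `x` small,
all other points at least 6, sum 88) with the exact values `MM B x = a`, `MM B y = b`. It plays
the role of `TwoS` in the engine of stage S: the points `u` with positive excess to `x` or `y`
are heavy, only `x` can be lower than `y` in the relative form.
-/

set_option autoImplicit false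

namespace Pool.Agent.Helper8.TY

open Finset
open Pool.Agent.Helper89.CV (OddCover ofMask)
open Pool.Agent.Helper97.CV Pool.Agent.Helper79.CV
open Pool.Agent.Helper82.TY (below Best)
open Pool.Agent.Helper4.CV Pool.Agent.Helper33.TY Pool.Agent.Helper25.TY
open Pool.Agent.Helper49.TY (QP)

/-- the context of stage B1b with the two values -/
structure PE (B : Finset (Finset (Fin 13))) (x y : Fin 13) (a b : ℕ) : Prop where
  qp : QP B x y
  hx : MM B x = a
  hy : MM B y = b

theorem PE.best {B : Finset (Finset (Fin 13))} {x y : Fin 13} {a b : ℕ} (h : PE B x y a b) :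
    Best B := h.qp.best

theorem PE.odd {B : Finset (Finset (Fin 13))} {x y : Fin 13} {a b : ℕ} (h : PE B x y a b) :
    OddCover B := h.qp.best.odd

theorem PE.map {B : Finset (Finset (Fin 13))} {x y : Fin 13} {a b : ℕ} (h : PE B x y a b)
    (σ : Equiv.Perm (Fin 13)) : PE (mapF σ B) (σ x) (σ y) a b := by
  refine ⟨h.qp.map σ, ?_, ?_⟩
  · rw [MM_mapF h.odd, h.hx]
  · rw [MM_mapF h.odd, h.hy]

theorem inv_PE (a b : ℕ) : Inv₂ fun B x y => PE B x y a b := fun σ _ _ _ h => PE.map h σ

/-- the values are even and `a ≤ 4`, `a ≤ b ≤ 6` -/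
theorem PE.le {B : Finset (Finset (Fin 13))} {x y : Fin 13} {a b : ℕ} (h : PE B x y a b) :
    a ≤ 4 ∧ a ≤ b ∧ b ≤ 6 := by
  have h1 := h.qp.hc
  have h2 := h.qp.hcy
  have h3 := h.qp.hy
  rw [h.hx] at h1 h2
  rw [h.hy] at h2 h3
  exact ⟨h1, h2, h3⟩

/-- the points outside the pair have `6 ≤ MM` -/
theorem PE.six {B : Finset (Finset (Fin 13))} {a b : ℕ} (h : PE B 12 11 a b) {z : Fin 13}
    (hz : z.val < 11) : 6 ≤ MM B z := by
  refine h.qp.other z ?_ ?_
  · rintro rfl
    exact absurd hz (by decide)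
  · rintro rfl
    exact absurd hz (by decide)

/-- the neighbours of the pair are heavy -/
theorem PE.heavy {B : Finset (Finset (Fin 13))} {a b : ℕ} (h : PE B 12 11 a b) {z : Fin 13}
    (hz : z.val < 11) (h1 : 1 ≤ mm B 12 z + mm B 11 z) : 8 ≤ MM B z := by
  have h12 : z ≠ 12 := by
    rintro rfl
    exact absurd hz (by decide)
  have h11 : z ≠ 11 := by
    rintro rfl
    exact absurd hz (by decide)
  rcases Nat.eq_zero_or_pos (mm B 12 z) with h2 | h2
  · exact h.qp.heavy_y h12 h11 (by omega)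
  · exact h.qp.heavy_c h12 h11 h2

/-! ## the relative form -/

/-- at least three quads of the link of `11` in a 5-set -/
theorem pe_three {B : Finset (Finset (Fin 13))} {a b : ℕ} (h : PE B 12 11 a b)
    {V : Finset (Fin 13)} (hV : V.card = 5) (h11 : (11 : Fin 13) ∉ V)
    (h3 : 3 ≤ (link B 11 ∩ V.powersetCard 4).card) :
    (12 : Fin 13) ∈ V ∧ V.erase 12 ∈ link B 11 ∧ a + 2 ≤ b := by
  have hb := h.le.2.2
  obtain ⟨u, hu, hul, hM⟩ := h.best.p_eq_three hV h11 h3
  rw [h.hy] at hM
  have h1 : u = 12 := by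
    by_contra hne
    have h2 : u ≠ 11 := fun h2 => h11 (h2 ▸ hu)
    have h4 := h.qp.other u hne h2
    omega
  subst h1
  rw [h.hx] at hM
  exact ⟨hu, hul, hM⟩

/-! ## the final step of a pair -/

theorem lS_le_PE {B : Finset (Finset (Fin 13))} {a b : ℕ} (h : PE B 12 11 a b)
    {Z : Finset (Fin 13)} (hZ : ∀ z ∈ Z, MM B z ≠ 6) {A : Fin 13 → ℕ}
    {P : Fin 13 → Fin 13 → ℕ} (hAP : Bnd B A P) {u : Fin 13} (hu : u.val < 11) :
    lS Z A u ≤ MM B u := by
  have h6 := h.six hu
  have hev := MM_even h.odd u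
  unfold lS
  split_ifs with hc
  · have h7 : MM B u ≠ 6 := by
      rcases hc with hc | hc
      · exact hZ u hc
      · have h9 := hAP.A_le u hu
        have := h.heavy hu (by omega)
        omega
    obtain ⟨k, hk⟩ := hev
    omega
  · exact h6

/-- the row sums contradict the sum of the `MM` -/
theorem PE.final {B : Finset (Finset (Fin 13))} {a b : ℕ} (h : PE B 12 11 a b)
    {A : Fin 13 → ℕ} {P : Fin 13 → Fin 13 → ℕ} (hAP : Bnd B A P) {l : Fin 13 → ℕ}
    (hl : ∀ u : Fin 13, u.val < 11 → l u ≤ MM B u)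
    (hs : 88 < a + b + ∑ v ∈ R11, max (l v) (row A P v)) : False := by
  have h2 := pair_sum h.odd hAP (l := l) hl
  rw [h.qp.sum, h.hx, h.hy] at h2
  omega

end Pool.Agent.Helper8.TY
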